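import Pool.Agent.H667R3.E3

/-!
# A counterexample to the relative semi-abelian analogue of Schanuel's conjecture

We work with `g = n = s = 1`.  Let `E = ℂ/Λ : y² = 4x³ - g₂x - g₃` be an elliptic curve over `ℚ̄`
and let `Q ∈ E^*(ℚ̄) = E(ℚ̄)`, `Q ≠ 0`, with elliptic logarithm `q`.  The extension `G` of `E` by
`𝔾ₘ` parametrized by `Q` has the exponential map (Serre)
`exp_G (z, t) = (℘(z) : ℘'(z) : 1 ; r)`, `r = f_q(z) e^t`,
`f_q(z) = σ(z+q)/(σ(z)σ(q)) e^{-ζ(q)z}`.
The differentials of the third kind on `G` over `ℚ̄` that restrict to `dr/r` on `𝔾ₘ` are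
`ξ = dt + c dz = dr/r - (1/2)(y - y_Q)/(x - x_Q) dx/y + c dx/y`, `c ∈ ℚ̄`.
-/

open scoped PeriodPair
open Complex (I)

noncomputable section

namespace Pool.Agent.Results.MP_4b482e_nt.RibetPoint

/-- The Weierstrass zeta function `ζ(z) = 1/z + ∑_{l ≠ 0} (1/(z-l) + 1/l + z/l²)` of the lattice
`Λ = L.lattice` (in Lean `1/0 = 0`, so the summand at `l = 0` is `1/z`). -/
def wZeta (L : PeriodPair) (z : ℂ) : ℂ := ∑' l : L.lattice, (1 / (z - l) + 1 / l + z / l ^ 2)

/-- The Weierstrass sigma function `σ(z) = z ∏_{l ≠ 0} (1 - z/l) exp (z/l + (z/l)²/2)`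
(the factor at `l = 0` is `1` in Lean). -/
def wSigma (L : PeriodPair) (z : ℂ) : ℂ :=
  z * ∏' l : L.lattice, ((1 - z / l) * Complex.exp (z / l + (z / l) ^ 2 / 2))

/-- The quasi-period `η(l) = ζ(z + l) - ζ(z)` (it does not depend on `z ∉ Λ`, see
`wZeta_add_period`; here `z = ω₁/2`). -/
def quasiPeriod (L : PeriodPair) (l : ℂ) : ℂ := wZeta L (L.ω₁ / 2 + l) - wZeta L (L.ω₁ / 2)

/-- Serre's function `f_q(z) = σ(z+q)/(σ(z)σ(q)) e^{-ζ(q) z}`. -/
def serre (L : PeriodPair) (q z : ℂ) : ℂ :=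
  wSigma L (z + q) / (wSigma L z * wSigma L q) * Complex.exp (-(wZeta L q * z))

/-- The data of the problem for `g = n = s = 1` (with `Q ≠ 0` and `R` outside the polar locus
`z ∈ {0, -q}` of the chart), in Weierstrass coordinates.
* `L` : the period lattice `Λ = ℤω₁ + ℤω₂` of `dx/y` on `E : y² = 4x³ - g₂x - g₃`;
* `q` : an elliptic logarithm of `Q`;
* `c` : the choice of the invariant differential `ξ = dt + c dz` of `G`;
* `p` : an elliptic logarithm of `P = π(R)`;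
* `T = ∫_O^R ξ`.
The curve `E`, the point `Q` and the differential `ξ` are defined over `ℚ̄`. -/
structure Datum where
  L : PeriodPair
  q : ℂ
  c : ℂ
  p : ℂ
  T : ℂ
  g₂_alg : IsAlgebraic ℚ L.g₂
  g₃_alg : IsAlgebraic ℚ L.g₃
  q_notMem : q ∉ L.lattice
  xQ_alg : IsAlgebraic ℚ (℘[L] q)
  yQ_alg : IsAlgebraic ℚ (℘'[L] q)
  c_alg : IsAlgebraic ℚ c
  p_notMem : p ∉ L.lattice
  p_add_q_notMem : p + q ∉ L.lattice

namespace Datum

variable (D : Datum)

/-- the `𝔾ₘ`-coordinate `r = f_q(p) e^t`, `t = T - c p`, of the point `R = exp_G (p, t)` -/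
def fibreCoord : ℂ := serre D.L D.q D.p * Complex.exp (D.T - D.c * D.p)

/-- the period `∫ ξ = l ζ(q) - η(l) q + c l` of `ξ` along a lift to `G` of the loop `l ∈ Λ`
(well defined modulo `2πiℤ`; cf. `serre_add_period`) -/
def xiPeriod (l : ℂ) : ℂ := l * wZeta D.L D.q - quasiPeriod D.L l * D.q + D.c * l

/-- the period set `Ω_G` -/
def Omega : Set ℂ :=
  {D.L.ω₁, D.L.ω₂, quasiPeriod D.L D.L.ω₁, quasiPeriod D.L D.L.ω₂, D.xiPeriod D.L.ω₁,
    D.xiPeriod D.L.ω₂, 2 * Real.pi * I}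

/-- the field `ℚ̄(Ω_G)` -/
def baseField : IntermediateField ℚ ℂ :=
  IntermediateField.adjoin ℚ ({x : ℂ | IsAlgebraic ℚ x} ∪ D.Omega)

/-- the field `F = ℚ̄(Ω_G, R, log_G R)`; the coordinates of `R` are `x(P), y(P), r` and the
components of its generalized logarithm are `p = ∫ dx/y`, `ζ(p)` and `T = ∫ ξ` -/
def bigField : IntermediateField D.baseField ℂ :=
  IntermediateField.adjoin D.baseField
    {℘[D.L] D.p, ℘'[D.L] D.p, D.fibreCoord, D.p, wZeta D.L D.p, D.T}

/-- the transcendence degree of `F` over `ℚ̄(Ω_G)` -/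
def trdeg : Cardinal := Algebra.trdeg D.baseField D.bigField

/-- the `ℚ`-span `V` of `2πi` and of the periods of `ξ` -/
def V : Submodule ℚ ℂ :=
  Submodule.span ℚ {2 * Real.pi * I, D.xiPeriod D.L.ω₁, D.xiPeriod D.L.ω₂}

/-- `t`, the dimension of the `ℚ`-span of `∫_O^R ξ` in `ℂ/V` -/
def t : ℕ := Module.finrank ℚ (Submodule.span ℚ {D.V.mkQ D.T})

open Classical in
/-- `dim B_Q`: it is `0` if `α P = β Q` for some endomorphisms `α ≠ 0`, `β` of `E`,
and `1` otherwise. -/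
def dimBQ : ℕ :=
  if ∃ α β : ℂ, α ≠ 0 ∧ (∀ l ∈ D.L.lattice, α * l ∈ D.L.lattice) ∧
    (∀ l ∈ D.L.lattice, β * l ∈ D.L.lattice) ∧ α * D.p - β * D.q ∈ D.L.lattice then 0 else 1

end Datum

/-! ### Sanity checks for the definitions -/

/-- `σ'/σ = ζ` -/
theorem hasDerivAt_wSigma (L : PeriodPair) {z : ℂ} (hz : z ∉ L.lattice) :
    HasDerivAt (wSigma L) (wZeta L z * wSigma L z) z := H667R3.hasDerivAt_sigma L hz

/-- `ζ' = -℘` -/
theorem hasDerivAt_wZeta (L : PeriodPair) {z : ℂ} (hz : z ∉ L.lattice) :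
    HasDerivAt (wZeta L) (-℘[L] z) z := H667R3.hasDerivAt_zeta L hz

/-- `ζ(z + l) = ζ(z) + η(l)` -/
theorem wZeta_add_period (L : PeriodPair) {z l : ℂ} (hz : z ∉ L.lattice) (hl : l ∈ L.lattice) :
    wZeta L (z + l) = wZeta L z + quasiPeriod L l := H667R3.zeta_add_coe L hz hl

/-- `f_q(z + l) = e^{η(l) q - ζ(q) l} f_q(z)` : the periods of `dt` are `ζ(q) l - η(l) q`. -/
theorem serre_add_period (L : PeriodPair) {l : ℂ} (hl : l ∈ L.lattice) (q z : ℂ) :
    serre L q (z + l) = Complex.exp (quasiPeriod L l * q - wZeta L q * l) * serre L q z :=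
  H667R3.serreF_add_coe L hl q z

/-- `f_q'/f_q = (1/2) (℘'(z) - ℘'(q))/(℘(z) - ℘(q))`, hence
`dt = dr/r - (1/2) (y - y_Q)/(x - x_Q) dx/y` -/
theorem hasDerivAt_serre (L : PeriodPair) {q z : ℂ} (hz : z ∉ L.lattice) (hq : q ∉ L.lattice)
    (h1 : z + q ∉ L.lattice) (h2 : z - q ∉ L.lattice) :
    HasDerivAt (serre L q)
      (serre L q z * ((℘'[L] z - ℘'[L] q) / (2 * (℘[L] z - ℘[L] q)))) z := by
  have h := H667R3.hasDerivAt_Fc L (c := 0) hz hq h1 h2
  have e : H667R3.Fc L q 0 = serre L q := by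
    ext x; simp [H667R3.Fc]; rfl
  rw [e] at h
  refine h.congr_deriv ?_
  rw [sub_zero]
  congr 1
  rw [mul_comm (2 : ℂ), ← div_div, div_eq_mul_inv (℘'[L] z - ℘'[L] q)]

lemma mem_Ki_of_rat {a b : ℚ} : (a : ℂ) + b * I ∈ H667R3.Ki :=
  add_mem (SubfieldClass.ratCast_mem _ _) (mul_mem (SubfieldClass.ratCast_mem _ _) H667R3.I_mem_Ki)

lemma isAlgebraic_I : IsAlgebraic ℚ I := by
  have h : IsIntegral ℚ I := by
    refine ⟨Polynomial.X ^ 2 + Polynomial.C 1, ?_, ?_⟩
    · exact Polynomial.monic_X_pow_add_C 1 (by norm_num)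
    · simp
  exact h.isAlgebraic

/-- **Disproof of the inequality.**  There are an elliptic curve `E : y² = 4x³ - 100x`, the point
`Q = (4, 12i)` and the point `P = (-4, 12)`, and `R ∈ G(ℚ(i))` above `P` (the Ribet point), such
that, whatever differential `ξ = dt + c dz`, `c ∈ ℚ(i)`, is chosen on `G`, one has
`trdeg = 0`, `dim B_Q = 0`, `t = 1`, so that `trdeg ≥ 2 dim B_Q + t` fails. -/
theorem result : ∃ (L : PeriodPair) (q p T₀ : ℂ),
    L.g₂ = 100 ∧ L.g₃ = 0 ∧ ℘[L] q = 4 ∧ ℘'[L] q = 12 * I ∧ ℘[L] p = -4 ∧ ℘'[L] p = 12 ∧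
    ∀ a b : ℚ, ∃ D : Datum, D.L = L ∧ D.q = q ∧ D.p = p ∧ D.c = a + b * I ∧ D.T = T₀ + D.c * p ∧
      D.fibreCoord ^ 2 = 8 * I ∧ D.trdeg = 0 ∧ D.dimBQ = 0 ∧ D.t = 1 ∧
      ¬ ((2 * D.dimBQ + D.t : ℕ) : Cardinal) ≤ D.trdeg := by
  obtain ⟨ω, hω, p, hg₂, hg₃, hp, hPp, hPp'⟩ := H667R3.exists_data
  have hCM : H667R3.CM (H667R3.sq ω hω) := H667R3.CM_sq
  have hnotV := H667R3.notMem_V hg₂ hg₃ hp hPp hPp'
  have hleg : ω * H667R3.eta (H667R3.sq ω hω) ω = Real.pi := H667R3.legendre_sq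
  have hη2 : H667R3.eta (H667R3.sq ω hω) (I * ω) = - I * H667R3.eta (H667R3.sq ω hω) ω :=
    H667R3.eta_I_mul hCM (H667R3.sq ω hω).ω₁_mem_lattice
  have hω₁ : (H667R3.sq ω hω).ω₁ = ω := rfl
  have hω₂ : (H667R3.sq ω hω).ω₂ = I * ω := rfl
  rw [hω₁, hω₂] at hnotV
  generalize H667R3.sq ω hω = L at *
  have hI : (I : ℂ) * I = -1 := Complex.I_mul_I
  have hq : I * p ∉ L.lattice := fun h => hp ((H667R3.I_mul_mem_iff hCM).mp h)
  have hnt := H667R3.nontorsion hg₂ hg₃ hp hPp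
  have hpq : p + I * p ∉ L.lattice := by
    have := (H667R3.nontorsion_cm hCM hnt 1).1
    simpa using this
  have hPq : ℘[L] (I * p) = 4 := by rw [H667R3.wp_I_mul hCM, hPp]; norm_num
  have hPq' : ℘'[L] (I * p) = 12 * I := by rw [H667R3.wp'_I_mul hCM, hPp']; ring
  have hζq : wZeta L (I * p) = - I * wZeta L p := H667R3.zeta_I_mul hCM p
  refine ⟨L, I * p, p, -(I * p * wZeta L p), hg₂, hg₃, hPq, hPq', hPp, hPp', fun a b => ?_⟩
  have halgn : ∀ n : ℕ, IsAlgebraic ℚ (n : ℂ) := fun n => isAlgebraic_natCast n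
  have hcalg : IsAlgebraic ℚ ((a : ℂ) + b * I) :=
    (isAlgebraic_ratCast ℚ a).add ((isAlgebraic_ratCast ℚ b).mul isAlgebraic_I)
  have h12 : IsAlgebraic ℚ (12 : ℂ) := by exact_mod_cast halgn 12
  have h4 : IsAlgebraic ℚ (4 : ℂ) := by exact_mod_cast halgn 4
  let D : Datum :=
    { L := L
      q := I * p
      c := a + b * I
      p := p
      T := -(I * p * wZeta L p) + (a + b * I) * p
      g₂_alg := by rw [hg₂]; exact_mod_cast halgn 100
      g₃_alg := by rw [hg₃]; exact_mod_cast halgn 0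
      q_notMem := hq
      xQ_alg := by rw [hPq]; exact h4
      yQ_alg := by rw [hPq']; exact h12.mul isAlgebraic_I
      c_alg := hcalg
      p_notMem := hp
      p_add_q_notMem := hpq }
  have hfib : D.fibreCoord ^ 2 = 8 * I := by
    have h1 : D.fibreCoord = Complex.exp (-(I * p * wZeta L p)) * serre L (I * p) p := by
      show serre L (I * p) p *
        Complex.exp (-(I * p * wZeta L p) + (a + b * I) * p - (a + b * I) * p) = _
      rw [add_sub_cancel_right, mul_comm]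
    rw [h1]
    have h2 := H667R3.ribet hCM hp
    rw [hPp] at h2
    have h3 : (Complex.exp (-(I * p * wZeta L p)) * serre L (I * p) p) ^ 2 = -(2 * I * -4) := h2
    rw [h3]; ring
  have hfibalg : IsAlgebraic ℚ D.fibreCoord := by
    have h1 : IsAlgebraic ℚ (D.fibreCoord ^ 2) := by
      rw [hfib]
      have h8 : IsAlgebraic ℚ (8 : ℂ) := by exact_mod_cast halgn 8
      exact h8.mul isAlgebraic_I
    exact IsAlgebraic.of_pow (by norm_num) h1
  -- everything lies in the base field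
  set K := D.baseField with hK
  have halgK : ∀ x : ℂ, IsAlgebraic ℚ x → x ∈ K := fun x hx =>
    IntermediateField.subset_adjoin ℚ _ (Or.inl hx)
  have hΩK : ∀ x ∈ D.Omega, x ∈ K := fun x hx =>
    IntermediateField.subset_adjoin ℚ _ (Or.inr hx)
  have k1 : ω ∈ K := hΩK _ (by
    have : ω = D.L.ω₁ := hω₁.symm
    rw [this]; simp [Datum.Omega])
  have k2 : quasiPeriod L ω ∈ K := hΩK _ (by
    have : ω = D.L.ω₁ := hω₁.symm
    rw [this]; exact Or.inr (Or.inr (Or.inl rfl)))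
  have k3 : D.xiPeriod ω ∈ K := hΩK _ (by
    have : ω = D.L.ω₁ := hω₁.symm
    rw [this]; exact Or.inr (Or.inr (Or.inr (Or.inr (Or.inl rfl)))))
  have k4 : D.xiPeriod (I * ω) ∈ K := hΩK _ (by
    have : I * ω = D.L.ω₂ := hω₂.symm
    rw [this]; exact Or.inr (Or.inr (Or.inr (Or.inr (Or.inr (Or.inl rfl))))))
  have kI : I ∈ K := halgK _ isAlgebraic_I
  have kc : ((a : ℂ) + b * I) ∈ K := halgK _ hcalg
  have k2' : (2 : ℂ) ∈ K := halgK _ (by exact_mod_cast halgn 2)
  have hηne : quasiPeriod L ω ≠ 0 := by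
    intro h
    have h0 : H667R3.eta L ω = 0 := h
    rw [h0, mul_zero] at hleg
    exact Real.pi_ne_zero (by exact_mod_cast hleg.symm)
  have hωne : ω ≠ 0 := hω
  -- expressions for the periods
  have e1 : D.xiPeriod ω = -I * (ω * wZeta L p + quasiPeriod L ω * p) + (a + b * I) * ω := by
    show ω * wZeta L (I * p) - quasiPeriod L ω * (I * p) + (a + b * I) * ω = _
    rw [hζq]; ring
  have e2 : D.xiPeriod (I * ω) = (ω * wZeta L p - quasiPeriod L ω * p) + (a + b * I) * (I * ω) := by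
    show (I * ω) * wZeta L (I * p) - quasiPeriod L (I * ω) * (I * p) + (a + b * I) * (I * ω) = _
    have hη2' : quasiPeriod L (I * ω) = - I * quasiPeriod L ω := hη2
    rw [hζq, hη2']
    linear_combination (quasiPeriod L ω * p - ω * wZeta L p) * hI
  have kp : p ∈ K := by
    have : p = (I * (D.xiPeriod ω - (a + b * I) * ω) - (D.xiPeriod (I * ω) - (a + b * I) * (I * ω)))
        / (2 * quasiPeriod L ω) := by
      rw [e1, e2, eq_div_iff (mul_ne_zero two_ne_zero hηne)]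
      linear_combination (ω * wZeta L p + quasiPeriod L ω * p) * hI
    rw [this]
    exact div_mem (sub_mem (mul_mem kI (sub_mem k3 (mul_mem kc k1)))
      (sub_mem k4 (mul_mem kc (mul_mem kI k1)))) (mul_mem k2' k2)
  have kζ : wZeta L p ∈ K := by
    have : wZeta L p = (I * (D.xiPeriod ω - (a + b * I) * ω) + (D.xiPeriod (I * ω) - (a + b * I) * (I * ω)))
        / (2 * ω) := by
      rw [e1, e2, eq_div_iff (mul_ne_zero two_ne_zero hωne)]
      linear_combination (ω * wZeta L p + quasiPeriod L ω * p) * hI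
    rw [this]
    exact div_mem (add_mem (mul_mem kI (sub_mem k3 (mul_mem kc k1)))
      (sub_mem k4 (mul_mem kc (mul_mem kI k1)))) (mul_mem k2' k1)
  have kT : D.T ∈ K := add_mem (neg_mem (mul_mem (mul_mem kI kp) kζ)) (mul_mem kc kp)
  have htr : D.trdeg = 0 := by
    have hgen : ∀ x ∈ ({℘[D.L] D.p, ℘'[D.L] D.p, D.fibreCoord, D.p, wZeta D.L D.p, D.T} : Set ℂ),
        x ∈ K := by
      intro x hx
      simp only [Set.mem_insert_iff, Set.mem_singleton_iff] at hx
      rcases hx with rfl | rfl | rfl | rfl | rfl | rfl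
      · apply halgK
        show IsAlgebraic ℚ (℘[L] p)
        rw [hPp]; exact h4.neg
      · apply halgK
        show IsAlgebraic ℚ (℘'[L] p)
        rw [hPp']; exact h12
      · exact halgK _ hfibalg
      · exact kp
      · exact kζ
      · exact kT
    have : Algebra.IsAlgebraic D.baseField D.bigField := by
      apply IntermediateField.isAlgebraic_adjoin
      intro x hx
      have hxK := hgen x hx
      exact isIntegral_algebraMap (R := D.baseField) (A := ℂ) (x := ⟨x, hxK⟩)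
    exact trdeg_eq_zero
  have hB : D.dimBQ = 0 := by
    unfold Datum.dimBQ
    rw [if_pos]
    refine ⟨I, 1, Complex.I_ne_zero, hCM, fun l hl => by rwa [one_mul], ?_⟩
    show I * p - 1 * (I * p) ∈ L.lattice
    rw [one_mul, sub_self]; exact zero_mem _
  have hTV : D.T ∉ D.V := by
    intro h
    rw [Datum.V, Submodule.mem_span_insert] at h
    obtain ⟨a', y, hy, h⟩ := h
    rw [Submodule.mem_span_pair] at hy
    obtain ⟨b₁, b₂, hy⟩ := hy
    apply hnotV (a + b * I) mem_Ki_of_rat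
    refine ⟨a', b₁, b₂, ?_⟩
    have hT : D.T = -(I * p * H667R3.zeta L p) + (a + b * I) * p := rfl
    rw [← hT, h, ← hy]
    have hx1 : D.xiPeriod D.L.ω₁ = H667R3.lam L (I * p) (a + b * I) ω := by
      have : D.L.ω₁ = ω := hω₁
      rw [this]; rfl
    have hx2 : D.xiPeriod D.L.ω₂ = H667R3.lam L (I * p) (a + b * I) (I * ω) := by
      have : D.L.ω₂ = I * ω := hω₂
      rw [this]; rfl
    rw [hx1, hx2]
    simp only [Rat.smul_def]
    ring
  have ht : D.t = 1 := by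
    unfold Datum.t
    apply finrank_span_singleton
    intro h
    rw [Submodule.mkQ_apply, Submodule.Quotient.mk_eq_zero] at h
    exact hTV h
  refine ⟨D, rfl, rfl, rfl, rfl, rfl, hfib, htr, hB, ht, ?_⟩
  rw [htr, hB, ht]
  simp

end Pool.Agent.Results.MP_4b482e_nt.RibetPoint
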